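import Pool.Agent.W805.LR.Stm5

/-!
# Project PD (MP_b817cf_pr, helper805): averages over samples; task PD-P3
-/

set_option autoImplicit false

namespace Pool.Agent.W782.PD.Avg

open Finset Equiv Filter Topology
open Pool.Agent.W805.LR Pool.Agent.W805.PD

section uavg

variable {A : Type} [Fintype A]

lemma uavg_const [Nonempty A] (c : ℝ) : uavg (fun _ : A => c) = c := by
  unfold uavg
  rw [Finset.sum_const, Finset.card_univ, nsmul_eq_mul, mul_div_cancel_left₀]
  exact_mod_cast Fintype.card_ne_zero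

lemma uavg_add (F G : A → ℝ) : uavg (fun a => F a + G a) = uavg F + uavg G := by
  unfold uavg
  rw [Finset.sum_add_distrib, add_div]

lemma uavg_sub (F G : A → ℝ) : uavg (fun a => F a - G a) = uavg F - uavg G := by
  unfold uavg
  rw [Finset.sum_sub_distrib, sub_div]

lemma uavg_mul (c : ℝ) (F : A → ℝ) : uavg (fun a => c * F a) = c * uavg F := by
  unfold uavg
  rw [← Finset.mul_sum, mul_div_assoc]

lemma uavg_sum {B : Type} (s : Finset B) (F : B → A → ℝ) :
    uavg (fun a => ∑ b ∈ s, F b a) = ∑ b ∈ s, uavg (F b) := by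
  unfold uavg
  rw [Finset.sum_comm, Finset.sum_div]

lemma uavg_mono {F G : A → ℝ} (h : ∀ a, F a ≤ G a) : uavg F ≤ uavg G := by
  unfold uavg
  exact div_le_div_of_nonneg_right (Finset.sum_le_sum fun a _ => h a) (Nat.cast_nonneg _)

lemma abs_uavg_sub_le [Nonempty A] (F : A → ℝ) (c : ℝ) :
    |uavg F - c| ≤ uavg (fun a => |F a - c|) := by
  have h1 : uavg F - c = uavg (fun a => F a - c) := by rw [uavg_sub, uavg_const]
  rw [h1]
  unfold uavg
  rw [abs_div, abs_of_nonneg (Nat.cast_nonneg _ : (0 : ℝ) ≤ Fintype.card A)]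
  exact div_le_div_of_nonneg_right (Finset.abs_sum_le_sum_abs _ _) (Nat.cast_nonneg _)

end uavg

section sample

variable {V : Type} [Fintype V]

lemma uavg_succ (m : ℕ) (F : (Fin (m + 1) → V) → ℝ) :
    uavg F = uavg (fun a : V => uavg fun v : Fin m → V => F (Fin.cons a v)) := by
  unfold uavg
  rw [← (Fin.consEquiv (fun _ : Fin (m + 1) => V)).sum_comp, Fintype.sum_prod_type,
    ← Finset.sum_div, div_div]
  congr 1
  rw [Fintype.card_pi, Fintype.card_pi]
  simp only [Finset.prod_const, Finset.card_univ, Fintype.card_fin]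
  push_cast
  ring

/-- second moment of a sum of independent centred variables -/
lemma uavg_sq [Nonempty V] (ψ : V → ℝ) (hψ : uavg ψ = 0) (m : ℕ) : ∀ c : ℝ,
    uavg (fun v : Fin m → V => (c + ∑ i, ψ (v i)) ^ 2) = c ^ 2 + m * uavg (fun a => ψ a ^ 2) := by
  induction m with
  | zero =>
    intro c
    have : ∀ v : Fin 0 → V, (c + ∑ i, ψ (v i)) ^ 2 = c ^ 2 := fun v => by simp
    simp only [this]
    rw [uavg_const]
    simp
  | succ m ih =>
    intro c
    rw [uavg_succ]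
    have h1 : ∀ (a : V) (v : Fin m → V),
        (c + ∑ i, ψ ((Fin.cons a v : Fin (m + 1) → V) i)) ^ 2 =
          ((c + ψ a) + ∑ i, ψ (v i)) ^ 2 := by
      intro a v
      rw [Fin.sum_univ_succ]
      simp only [Fin.cons_zero, Fin.cons_succ]
      ring
    simp only [h1, ih]
    have h2 : ∀ a : V, (c + ψ a) ^ 2 + m * uavg (fun a => ψ a ^ 2) =
        (c ^ 2 + m * uavg (fun a => ψ a ^ 2)) + (2 * c * ψ a + ψ a ^ 2) := by
      intro a; ring
    simp only [h2]
    rw [uavg_add (fun _ : V => c ^ 2 + m * uavg (fun a => ψ a ^ 2))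
      (fun a : V => 2 * c * ψ a + ψ a ^ 2), uavg_const,
      uavg_add (fun a : V => 2 * c * ψ a) (fun a : V => ψ a ^ 2), uavg_mul, hψ]
    push_cast
    ring

/-- variance of a sample mean -/
lemma uavg_var [Nonempty V] (χ : V → ℝ) {m : ℕ} (hm : 0 < m) :
    uavg (fun v : Fin m → V => ((∑ i, χ (v i)) / m - uavg χ) ^ 2) =
      uavg (fun a => (χ a - uavg χ) ^ 2) / m := by
  have hm' : (0 : ℝ) < m := by exact_mod_cast hm
  have h0 : uavg (fun a => χ a - uavg χ) = 0 := by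
    rw [uavg_sub, uavg_const, sub_self]
  have h1 := uavg_sq (fun a => χ a - uavg χ) h0 m 0
  have h2 : ∀ v : Fin m → V, ((∑ i, χ (v i)) / m - uavg χ) ^ 2 =
      (1 / (m : ℝ) ^ 2) * (0 + ∑ i, (χ (v i) - uavg χ)) ^ 2 := by
    intro v
    rw [Finset.sum_sub_distrib, Finset.sum_const, Finset.card_univ, Fintype.card_fin,
      nsmul_eq_mul]
    field_simp
    ring
  simp only [h2]
  rw [uavg_mul, h1]
  field_simp
  ring

end sample

/-! ### Stick breaking -/

section stick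

open MeasureTheory

/-- the law of the uniform variables -/
noncomputable abbrev PU : Measure (ℕ → unitInterval) :=
  Measure.infinitePi (fun _ : ℕ => (volume : Measure unitInterval))

/-- the sticks -/
noncomputable def yy (U : ℕ → unitInterval) (j : ℕ) : ℝ :=
  (U j : ℝ) * ∏ l ∈ Finset.range j, (1 - (U l : ℝ))

/-- the ordered sticks -/
noncomputable def ss (U : ℕ → unitInterval) (i : ℕ) : ℝ :=
  sSup {x : ℝ | ((i + 1 : ℕ) : ℕ∞) ≤ Set.encard {j : ℕ | x ≤ yy U j}}

lemma yy_nonneg (U : ℕ → unitInterval) (j : ℕ) : 0 ≤ yy U j :=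
  mul_nonneg (U j).2.1 (Finset.prod_nonneg fun l _ => sub_nonneg.mpr (U l).2.2)

lemma yy_le_one (U : ℕ → unitInterval) (j : ℕ) : yy U j ≤ 1 :=
  mul_le_one₀ (U j).2.2 (Finset.prod_nonneg fun l _ => sub_nonneg.mpr (U l).2.2)
    (Finset.prod_le_one (fun l _ => sub_nonneg.mpr (U l).2.2) fun l _ =>
      sub_le_self _ (U l).2.1)

lemma zero_mem (U : ℕ → unitInterval) (i : ℕ) :
    (0 : ℝ) ∈ {x : ℝ | ((i + 1 : ℕ) : ℕ∞) ≤ Set.encard {j : ℕ | x ≤ yy U j}} := by
  have h1 : {j : ℕ | (0 : ℝ) ≤ yy U j} = Set.univ := by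
    ext j
    simp [yy_nonneg U j]
  show ((i + 1 : ℕ) : ℕ∞) ≤ Set.encard {j : ℕ | (0 : ℝ) ≤ yy U j}
  rw [h1, Set.encard_univ]
  simp

lemma mem_le_one (U : ℕ → unitInterval) (i : ℕ) {x : ℝ}
    (hx : x ∈ {x : ℝ | ((i + 1 : ℕ) : ℕ∞) ≤ Set.encard {j : ℕ | x ≤ yy U j}}) : x ≤ 1 := by
  have h1 : ((i + 1 : ℕ) : ℕ∞) ≤ Set.encard {j : ℕ | x ≤ yy U j} := hx
  have h2 : ({j : ℕ | x ≤ yy U j}).Nonempty := by
    rw [Set.nonempty_iff_ne_empty]
    intro h
    rw [h, Set.encard_empty] at h1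
    simp at h1
  obtain ⟨j, hj⟩ := h2
  exact le_trans hj (yy_le_one U j)

lemma bdd (U : ℕ → unitInterval) (i : ℕ) :
    BddAbove {x : ℝ | ((i + 1 : ℕ) : ℕ∞) ≤ Set.encard {j : ℕ | x ≤ yy U j}} :=
  ⟨1, fun _ hx => mem_le_one U i hx⟩

lemma ss_nonneg (U : ℕ → unitInterval) (i : ℕ) : 0 ≤ ss U i := le_csSup (bdd U i) (zero_mem U i)

lemma ss_le_one (U : ℕ → unitInterval) (i : ℕ) : ss U i ≤ 1 :=
  csSup_le ⟨0, zero_mem U i⟩ fun _ hx => mem_le_one U i hx

lemma measurable_yy (j : ℕ) : Measurable fun U : ℕ → unitInterval => yy U j := by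
  unfold yy
  fun_prop

lemma measurable_ss (i : ℕ) : Measurable fun U : ℕ → unitInterval => ss U i := by
  apply measurable_of_Ioi
  intro c
  have h1 : (fun U : ℕ → unitInterval => ss U i) ⁻¹' (Set.Ioi c) =
      ⋃ q : {q : ℚ // c < (q : ℝ)}, ⋃ T : {T : Finset ℕ // T.card = i + 1}, ⋂ j : {j // j ∈ T.1},
        {U : ℕ → unitInterval | ((q.1 : ℚ) : ℝ) ≤ yy U j} := by
    ext U
    simp only [Set.mem_preimage, Set.mem_Ioi, Set.mem_iUnion, Set.mem_iInter]
    constructor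
    · intro h
      obtain ⟨x, hx, hcx⟩ := (lt_csSup_iff (bdd U i) ⟨0, zero_mem U i⟩).mp h
      obtain ⟨q, hcq, hqx⟩ := exists_rat_btwn hcx
      obtain ⟨t, hts, htc⟩ := Set.exists_subset_encard_eq hx
      have hfin : t.Finite := Set.finite_of_encard_eq_coe htc
      refine ⟨⟨q, hcq⟩, ⟨hfin.toFinset, ?_⟩, fun j => ?_⟩
      · have h2 := hfin.encard_eq_coe_toFinset_card
        rw [htc] at h2
        exact_mod_cast h2.symm
      · have hj : (j : ℕ) ∈ t := hfin.mem_toFinset.mp j.2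
        have h3 : x ≤ yy U j := hts hj
        exact hqx.le.trans h3
    · rintro ⟨⟨q, hq⟩, ⟨T, hT⟩, h⟩
      apply (lt_csSup_iff (bdd U i) ⟨0, zero_mem U i⟩).mpr
      refine ⟨q, ?_, hq⟩
      show ((i + 1 : ℕ) : ℕ∞) ≤ Set.encard {j : ℕ | (q : ℝ) ≤ yy U j}
      have h2 : (T : Set ℕ) ⊆ {j : ℕ | (q : ℝ) ≤ yy U j} := fun j hj => h ⟨j, hj⟩
      refine le_trans (le_of_eq ?_) (Set.encard_le_encard h2)
      rw [Set.encard_coe_eq_coe_finsetCard, hT]
  rw [h1]
  refine MeasurableSet.iUnion fun q => MeasurableSet.iUnion fun T => MeasurableSet.iInter fun j => ?_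
  exact measurableSet_le measurable_const (measurable_yy _)

lemma pdInt_eq (k : ℕ) (f : (Fin k → ℝ) → ℝ) (M : ℝ) :
    pdInt k f M = ∫ U, f (fun i : Fin k => M * ss U i) ∂PU := rfl

/-- `pdInt` is uniformly continuous and bounded on `[0, 1]` -/
lemma pdInt_cont (k : ℕ) (f : (Fin k → ℝ) → ℝ) (hf : Continuous f) :
    (∃ C : ℝ, 0 < C ∧ ∀ M, 0 ≤ M → M ≤ 1 → |pdInt k f M| ≤ C) ∧
    ∀ ε : ℝ, 0 < ε → ∃ η : ℝ, 0 < η ∧ ∀ M M' : ℝ, 0 ≤ M → M ≤ 1 → 0 ≤ M' → M' ≤ 1 →
      |M - M'| ≤ η → |pdInt k f M - pdInt k f M'| ≤ ε := by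
  have hK : IsCompact (Set.Icc (0 : Fin k → ℝ) 1) := isCompact_Icc
  obtain ⟨C, hC⟩ := hK.exists_bound_of_continuousOn hf.continuousOn
  have hmem : ∀ (M : ℝ) (U : ℕ → unitInterval), 0 ≤ M → M ≤ 1 →
      (fun i : Fin k => M * ss U i) ∈ Set.Icc (0 : Fin k → ℝ) 1 := by
    intro M U h0 h1
    constructor
    · intro i
      exact mul_nonneg h0 (ss_nonneg U i)
    · intro i
      exact mul_le_one₀ h1 (ss_nonneg U i) (ss_le_one U i)
  have hmeas : ∀ M : ℝ, Measurable fun U : ℕ → unitInterval => f (fun i : Fin k => M * ss U i) := by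
    intro M
    apply hf.measurable.comp
    rw [measurable_pi_iff]
    intro i
    exact (measurable_ss i).const_mul M
  have hint : ∀ M : ℝ, 0 ≤ M → M ≤ 1 →
      Integrable (fun U : ℕ → unitInterval => f (fun i : Fin k => M * ss U i)) PU := by
    intro M h0 h1
    refine (integrable_const C).mono' (hmeas M).aestronglyMeasurable
      (Eventually.of_forall fun U => hC _ (hmem M U h0 h1))
  refine ⟨⟨|C| + 1, by positivity, fun M h0 h1 => ?_⟩, fun ε hε => ?_⟩
  · rw [pdInt_eq, ← Real.norm_eq_abs]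
    refine (norm_integral_le_of_norm_le_const (Eventually.of_forall fun U =>
      hC _ (hmem M U h0 h1))).trans ?_
    rw [probReal_univ, mul_one]
    linarith [le_abs_self C]
  · have huc := hK.uniformContinuousOn_of_continuous hf.continuousOn
    rw [Metric.uniformContinuousOn_iff_le] at huc
    obtain ⟨η, hη, h⟩ := huc ε hε
    refine ⟨η, hη, fun M M' h0 h1 h0' h1' hMM => ?_⟩
    rw [pdInt_eq, pdInt_eq, ← integral_sub (hint M h0 h1) (hint M' h0' h1'), ← Real.norm_eq_abs]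
    refine (norm_integral_le_of_norm_le_const (C := ε) (Eventually.of_forall fun U => ?_)).trans ?_
    · rw [← dist_eq_norm]
      apply h _ (hmem M U h0 h1) _ (hmem M' U h0' h1')
      rw [dist_pi_le_iff hη.le]
      intro i
      rw [Real.dist_eq, ← sub_mul, abs_mul, abs_of_nonneg (ss_nonneg U i)]
      exact (mul_le_of_le_one_right (abs_nonneg _) (ss_le_one U i)).trans hMM
    · rw [probReal_univ, mul_one]

end stick

/-- PD-P3 -/
theorem mass : S_mass := by
  intro k f δ hf hδ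
  obtain ⟨⟨C, hC0, hC⟩, huc⟩ := pdInt_cont k f hf
  obtain ⟨η, hη, hη'⟩ := huc (δ / 2) (by linarith)
  obtain ⟨m0, hm0⟩ := exists_nat_ge (4 * C / (η ^ 2 * δ) + 1)
  refine ⟨m0, fun m hm V _ _ _ g K => ?_⟩
  have hmr : 4 * C / (η ^ 2 * δ) + 1 ≤ m := hm0.trans (by exact_mod_cast hm)
  have hpos : 0 ≤ 4 * C / (η ^ 2 * δ) := by positivity
  have hm1 : (0 : ℝ) < m := by linarith
  have hm1' : 0 < m := by exact_mod_cast hm1
  set χ : V → ℝ := fun v => if 1 ≤ K * pc g v then 1 else 0 with hχ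
  have hχ01 : ∀ v, 0 ≤ χ v ∧ χ v ≤ 1 := by
    intro v
    simp only [hχ]
    split_ifs <;> norm_num
  have hM0 : 0 ≤ uavg χ := by
    have := uavg_mono (F := fun _ : V => (0 : ℝ)) (G := χ) fun v => (hχ01 v).1
    rwa [uavg_const] at this
  have hM1 : uavg χ ≤ 1 := by
    have := uavg_mono (F := χ) (G := fun _ : V => (1 : ℝ)) fun v => (hχ01 v).2
    rwa [uavg_const] at this
  have hcard : ∀ v : Fin m → V, ((big g K v).card : ℝ) = ∑ i, χ (v i) := by
    intro v
    unfold big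
    rw [Finset.card_filter]
    push_cast
    rfl
  have hX0 : ∀ v : Fin m → V, 0 ≤ ((big g K v).card : ℝ) / m := fun v => by positivity
  have hX1 : ∀ v : Fin m → V, ((big g K v).card : ℝ) / m ≤ 1 := by
    intro v
    rw [div_le_one hm1]
    have : (big g K v).card ≤ m := (Finset.card_le_univ _).trans (by simp)
    exact_mod_cast this
  refine (abs_uavg_sub_le _ _).trans ?_
  have hpt : ∀ v : Fin m → V, |pdInt k f ((big g K v).card / m) - pdInt k f (uavg χ)| ≤
      δ / 2 + 2 * C / η ^ 2 * ((∑ i, χ (v i)) / m - uavg χ) ^ 2 := by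
    intro v
    have h0 : 0 ≤ 2 * C / η ^ 2 * ((∑ i, χ (v i)) / m - uavg χ) ^ 2 := by positivity
    rcases le_or_gt |((big g K v).card : ℝ) / m - uavg χ| η with h | h
    · have := hη' _ _ (hX0 v) (hX1 v) hM0 hM1 h
      linarith
    · have h1 : |pdInt k f ((big g K v).card / m) - pdInt k f (uavg χ)| ≤ 2 * C := by
        refine (abs_sub _ _).trans ?_
        have e1 := hC _ (hX0 v) (hX1 v)
        have e2 := hC _ hM0 hM1
        linarith
      have h2 : 2 * C ≤ 2 * C / η ^ 2 * ((∑ i, χ (v i)) / m - uavg χ) ^ 2 := by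
        rw [← hcard, div_mul_eq_mul_div, le_div_iff₀ (by positivity)]
        have h3 : η ^ 2 ≤ (((big g K v).card : ℝ) / m - uavg χ) ^ 2 := by
          rw [← sq_abs (((big g K v).card : ℝ) / m - uavg χ)]
          exact pow_le_pow_left₀ hη.le h.le 2
        exact mul_le_mul_of_nonneg_left h3 (by positivity)
      linarith
  refine (uavg_mono hpt).trans ?_
  rw [uavg_add, uavg_const, uavg_mul, uavg_var χ hm1']
  have hvar : uavg (fun a => (χ a - uavg χ) ^ 2) ≤ 1 := by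
    have : ∀ a, (χ a - uavg χ) ^ 2 ≤ 1 := by
      intro a
      have h1 := hχ01 a
      rw [sq_le_one_iff_abs_le_one, abs_le]
      constructor <;> linarith
    have h2 := uavg_mono this
    rwa [uavg_const] at h2
  have hvar0 : 0 ≤ uavg (fun a => (χ a - uavg χ) ^ 2) := by
    have h2 := uavg_mono (F := fun _ : V => (0 : ℝ)) (G := fun a => (χ a - uavg χ) ^ 2)
      fun a => sq_nonneg _
    rwa [uavg_const] at h2
  have h3 : 2 * C / η ^ 2 * (uavg (fun a => (χ a - uavg χ) ^ 2) / m) ≤ 2 * C / η ^ 2 * (1 / m) := by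
    gcongr
  have h4 : 2 * C / η ^ 2 * (1 / m) ≤ δ / 2 := by
    rw [div_mul_div_comm, mul_one, div_le_div_iff₀ (by positivity) (by norm_num)]
    have h5 : 4 * C / (η ^ 2 * δ) ≤ m := by linarith
    rw [div_le_iff₀ (by positivity)] at h5
    nlinarith
  linarith

end Pool.Agent.W782.PD.Avg
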