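import Pool.Agent.W805.LR.Stm5
import Pool.Agent.W29.LR.CV

/-!
# Project PD (MP_b817cf_pr, helper805): task PD-IV
-/

set_option autoImplicit false

namespace Pool.Agent.W782.PD.Inv

open Finset Equiv NormedSpace
open Pool.Agent.W805.LR Pool.Agent.W805.PD Pool.Agent.W32.LR Pool.Agent.W29.LR.CV

/-! ### Poisson weights -/

section poisson

/-- weights -/
noncomputable def pw (μ : ℝ) (k : ℕ) : ℝ := μ ^ k / (k.factorial : ℝ)

/-- shifted weights -/
noncomputable def aw (μ : ℝ) (k : ℕ) : ℝ := k / μ * pw μ k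

lemma pw_hasSum (μ : ℝ) : HasSum (pw μ) (Real.exp μ) := by
  have := NormedSpace.expSeries_div_hasSum_exp (𝔸 := ℝ) μ
  rw [← Real.exp_eq_exp_ℝ] at this
  exact this

lemma aw_zero (μ : ℝ) : aw μ 0 = 0 := by simp [aw]

lemma aw_succ {μ : ℝ} (hμ : 0 < μ) (k : ℕ) : aw μ (k + 1) = pw μ k := by
  unfold aw pw
  rw [Nat.factorial_succ]
  have h1 : ((k : ℝ) + 1) ≠ 0 := by positivity
  have h2 : ((k.factorial : ℕ) : ℝ) ≠ 0 := by positivity
  push_cast
  field_simp
  ring

lemma shift_hasSum {μ : ℝ} (hμ : 0 < μ) (b : ℕ → ℝ) (S : ℝ)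
    (h : HasSum (fun k => pw μ k * b (k + 1)) S) : HasSum (fun k => aw μ k * b k) S := by
  have h1 := (hasSum_nat_add_iff (f := fun k => aw μ k * b k) (g := S) 1).mp (by
    simpa only [aw_succ hμ] using h)
  simpa [aw_zero] using h1

lemma kpw_hasSum {μ : ℝ} (hμ : 0 < μ) : HasSum (fun k : ℕ => (k : ℝ) * pw μ k) (μ * Real.exp μ) := by
  have h1 := shift_hasSum hμ (fun _ => μ) (Real.exp μ * μ) ((pw_hasSum μ).mul_right μ)
  have h2 : (fun k : ℕ => aw μ k * μ) = fun k : ℕ => (k : ℝ) * pw μ k := by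
    funext k
    unfold aw
    field_simp
  rw [h2, mul_comm] at h1
  exact h1

lemma kkpw_hasSum {μ : ℝ} (hμ : 0 < μ) :
    HasSum (fun k : ℕ => (k : ℝ) ^ 2 * pw μ k) ((μ ^ 2 + μ) * Real.exp μ) := by
  have h0 : HasSum (fun k : ℕ => pw μ k * (μ * ((k + 1 : ℕ) : ℝ))) ((μ ^ 2 + μ) * Real.exp μ) := by
    have h1 := ((kpw_hasSum hμ).mul_right μ).add ((pw_hasSum μ).mul_right μ)
    have h2 : (fun k : ℕ => (k : ℝ) * pw μ k * μ + pw μ k * μ) =
        fun k : ℕ => pw μ k * (μ * ((k + 1 : ℕ) : ℝ)) := by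
      funext k
      push_cast
      ring
    rw [h2] at h1
    have h3 : μ * Real.exp μ * μ + Real.exp μ * μ = (μ ^ 2 + μ) * Real.exp μ := by ring
    rwa [h3] at h1
  have h1 := shift_hasSum hμ (fun k => μ * (k : ℝ)) _ h0
  have h2 : (fun k : ℕ => aw μ k * (μ * (k : ℝ))) = fun k : ℕ => (k : ℝ) ^ 2 * pw μ k := by
    funext k
    unfold aw
    field_simp
  rwa [h2] at h1

lemma pw_nonneg {μ : ℝ} (hμ : 0 < μ) (k : ℕ) : 0 ≤ pw μ k := by unfold pw; positivity

/-- the difference is small -/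
lemma diff_le {μ : ℝ} (hμ : 0 < μ) (b : ℕ → ℝ) (hb : ∀ k, |b k| ≤ 1) (S S' : ℝ)
    (h : HasSum (fun k => pw μ k * b k) S) (h' : HasSum (fun k => pw μ k * b (k + 1)) S') :
    |S - S'| ≤ Real.exp μ / Real.sqrt μ := by
  have hs : 0 < Real.sqrt μ := Real.sqrt_pos.mpr hμ
  have hsq : Real.sqrt μ ^ 2 = μ := Real.sq_sqrt hμ.le
  have h1 := h.sub (shift_hasSum hμ b S' h')
  -- dominating series
  have h2 : HasSum (fun k : ℕ => pw μ k * (Real.sqrt μ / 2 * (1 - k / μ) ^ 2 +
      1 / (2 * Real.sqrt μ))) (Real.exp μ / Real.sqrt μ) := by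
    have e1 := (((pw_hasSum μ).sub ((kpw_hasSum hμ).mul_left (2 / μ))).add
      ((kkpw_hasSum hμ).mul_left (1 / μ ^ 2))).mul_left (Real.sqrt μ / 2)
    have e2 := e1.add ((pw_hasSum μ).mul_left (1 / (2 * Real.sqrt μ)))
    have e3 : (fun k : ℕ => Real.sqrt μ / 2 * (pw μ k - 2 / μ * (k * pw μ k) +
        1 / μ ^ 2 * (k ^ 2 * pw μ k)) + 1 / (2 * Real.sqrt μ) * pw μ k) =
        fun k : ℕ => pw μ k * (Real.sqrt μ / 2 * (1 - k / μ) ^ 2 + 1 / (2 * Real.sqrt μ)) := by
      funext k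
      field_simp
      ring
    rw [e3] at e2
    have e4 : Real.exp μ - 2 / μ * (μ * Real.exp μ) + 1 / μ ^ 2 * ((μ ^ 2 + μ) * Real.exp μ) =
        Real.exp μ / μ := by
      field_simp
      ring
    rw [e4] at e2
    have e5 : Real.sqrt μ / 2 * (Real.exp μ / μ) = Real.exp μ / (2 * Real.sqrt μ) := by
      rw [div_mul_div_comm, div_eq_div_iff (by positivity) (by positivity)]
      calc Real.sqrt μ * Real.exp μ * (2 * Real.sqrt μ) = 2 * Real.exp μ * Real.sqrt μ ^ 2 := by ring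
        _ = Real.exp μ * (2 * μ) := by rw [hsq]; ring
    rw [e5] at e2
    have e6 : Real.exp μ / (2 * Real.sqrt μ) + 1 / (2 * Real.sqrt μ) * Real.exp μ =
        Real.exp μ / Real.sqrt μ := by
      field_simp
      ring
    rwa [e6] at e2
  rw [← h1.tsum_eq, ← h2.tsum_eq]
  have hle : ∀ k : ℕ, |pw μ k * b k - aw μ k * b k| ≤
      pw μ k * (Real.sqrt μ / 2 * (1 - k / μ) ^ 2 + 1 / (2 * Real.sqrt μ)) := by
    intro k
    have e1 : pw μ k * b k - aw μ k * b k = pw μ k * ((1 - k / μ) * b k) := by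
      unfold aw; ring
    rw [e1, abs_mul, abs_of_nonneg (pw_nonneg hμ k), abs_mul]
    apply mul_le_mul_of_nonneg_left _ (pw_nonneg hμ k)
    have e2 : |(1 - k / μ : ℝ)| * |b k| ≤ |(1 - k / μ : ℝ)| :=
      mul_le_of_le_one_right (abs_nonneg _) (hb k)
    refine e2.trans ?_
    set x : ℝ := |(1 - k / μ : ℝ)| with hx
    have e3 : (1 - k / μ : ℝ) ^ 2 = x ^ 2 := (sq_abs _).symm
    rw [e3]
    have e4 : Real.sqrt μ / 2 * x ^ 2 + 1 / (2 * Real.sqrt μ) - x =
        (Real.sqrt μ * x - 1) ^ 2 / (2 * Real.sqrt μ) := by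
      field_simp
      ring
    have e5 : 0 ≤ (Real.sqrt μ * x - 1) ^ 2 / (2 * Real.sqrt μ) := by positivity
    linarith
  have hsum : Summable fun k : ℕ => |pw μ k * b k - aw μ k * b k| :=
    Summable.of_nonneg_of_le (fun _ => abs_nonneg _) hle h2.summable
  have h3 := norm_tsum_le_tsum_norm (f := fun k : ℕ => pw μ k * b k - aw μ k * b k) (by
    simpa only [Real.norm_eq_abs] using hsum)
  simp only [Real.norm_eq_abs] at h3
  exact h3.trans (hsum.tsum_le_tsum hle h2.summable)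

end poisson

section op

variable {V : Type} [Fintype V] [DecidableEq V]

lemma uavg_abs_le {A : Type} [Fintype A] (F : A → ℝ) {c : ℝ} (hc : 0 ≤ c) (h : ∀ a, |F a| ≤ c) :
    |uavg F| ≤ c := by
  unfold uavg
  rw [abs_div, abs_of_nonneg (Nat.cast_nonneg _ : (0 : ℝ) ≤ Fintype.card A)]
  rcases Nat.eq_zero_or_pos (Fintype.card A) with h0 | h0
  · rw [h0]; simpa using hc
  · have h0' : (0 : ℝ) < Fintype.card A := by exact_mod_cast h0
    rw [div_le_iff₀ h0']
    calc |∑ a, F a| ≤ ∑ a, |F a| := Finset.abs_sum_le_sum_abs _ _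
      _ ≤ ∑ _a : A, c := Finset.sum_le_sum fun a _ => h a
      _ = c * Fintype.card A := by
        rw [Finset.sum_const, Finset.card_univ, nsmul_eq_mul, mul_comm]

/-- the averaging operator -/
noncomputable def TT (V : Type) [Fintype V] [DecidableEq V] :
    (Perm V → ℝ) →L[ℝ] (Perm V → ℝ) :=
  (2 / (Fintype.card V : ℝ) ^ 2) • (BB V + ((Fintype.card V : ℝ) / 2) • 1)

lemma TT_apply [Nonempty V] (F : Perm V → ℝ) (g : Perm V) :
    TT V F g = uavg (fun p : V × V => F (swap p.1 p.2 * g)) := by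
  have hn : (0 : ℝ) < Fintype.card V := by exact_mod_cast Fintype.card_pos
  have h1 : BB V F g = ∑ x, ∑ y, (if x ≠ y then 1 / 2 * F (swap x y * g) else 0) := by
    rw [BB_apply]
    conv_rhs => rw [← Equiv.sum_comp g]
    refine Finset.sum_congr rfl fun x _ => ?_
    conv_rhs => rw [← Equiv.sum_comp g]
    refine Finset.sum_congr rfl fun y _ => ?_
    have h2 : (g x ≠ g y) ↔ x ≠ y := g.injective.ne_iff
    have h3 : g * swap x y = swap (g x) (g y) * g := Equiv.mul_swap_eq_swap_mul g x y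
    simp only [h2, h3]
  have h2 : ∀ x : V, ∑ y, (if x ≠ y then 1 / 2 * F (swap x y * g) else 0) =
      1 / 2 * ∑ y, F (swap x y * g) - 1 / 2 * F g := by
    intro x
    have h3 : ∀ y : V, (if x ≠ y then 1 / 2 * F (swap x y * g) else 0) =
        1 / 2 * F (swap x y * g) - (if x = y then 1 / 2 * F g else 0) := by
      intro y
      by_cases h : x = y
      · subst h
        have h5 : swap x x * g = g := by rw [Equiv.swap_self]; rfl
        rw [h5]
        simp
      · simp [h]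
    rw [Finset.sum_congr rfl fun y _ => h3 y, Finset.sum_sub_distrib, Finset.mul_sum]
    simp
  have h4 : TT V F g = 2 / (Fintype.card V : ℝ) ^ 2 * (BB V F g + (Fintype.card V : ℝ) / 2 * F g) :=
    rfl
  rw [h4, h1, Finset.sum_congr rfl fun x _ => h2 x, Finset.sum_sub_distrib, ← Finset.mul_sum]
  unfold uavg
  rw [Fintype.sum_prod_type, Fintype.card_prod]
  simp only [Finset.sum_const, Finset.card_univ, nsmul_eq_mul]
  push_cast
  field_simp
  ring

lemma TT_pow [Nonempty V] (K : ℕ) : ∀ (F : Perm V → ℝ) (g : Perm V),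
    ((TT V) ^ K) F g = uavg (fun x : Fin K → V × V => F (prodSw x * g)) := by
  induction K with
  | zero =>
    intro F g
    unfold uavg prodSw
    simp
  | succ K ih =>
    intro F g
    have h1 : ((TT V) ^ (K + 1)) F = ((TT V) ^ K) (TT V F) := by
      rw [pow_succ]; rfl
    rw [h1, ih]
    simp only [TT_apply]
    unfold uavg
    rw [← (Fin.consEquiv (fun _ : Fin (K + 1) => V × V)).sum_comp, Fintype.sum_prod_type_right]
    have h2 : ∀ (x : Fin K → V × V) (p : V × V),
        F (prodSw ((Fin.consEquiv (fun _ : Fin (K + 1) => V × V)) (p, x)) * g) =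
          F (swap p.1 p.2 * (prodSw x * g)) := by
      intro x p
      congr 1
      unfold prodSw
      rw [List.ofFn_succ, List.prod_cons]
      simp [Fin.consEquiv, mul_assoc]
    simp only [h2]
    rw [← Finset.sum_div, div_div]
    congr 1
    rw [Fintype.card_pi, Fintype.card_pi]
    simp only [Finset.prod_const, Finset.card_univ, Fintype.card_fin]
    push_cast
    ring

lemma TT_abs [Nonempty V] (K : ℕ) (F : Perm V → ℝ) (hF : ∀ g, |F g| ≤ 1) (g : Perm V) :
    |((TT V) ^ K) F g| ≤ 1 := by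
  rw [TT_pow]
  exact uavg_abs_le _ zero_le_one fun _ => hF _

lemma TT_one [Nonempty V] (K : ℕ) (g : Perm V) :
    ((TT V) ^ K) (fun _ => (1 : ℝ)) g = 1 := by
  rw [TT_pow]
  unfold uavg
  rw [Finset.sum_const, Finset.card_univ, nsmul_eq_mul, mul_one, div_self]
  exact_mod_cast Fintype.card_ne_zero

lemma exp_TT (s : ℝ) (F : Perm V → ℝ) (g : Perm V) :
    HasSum (fun m : ℕ => pw s m * ((TT V) ^ m) F g) ((exp (s • TT V)) F g) := by
  have h1 : HasSum (fun m : ℕ => ((m.factorial : ℝ)⁻¹) • (s • TT V) ^ m) (exp (s • TT V)) := by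
    have := (expSeries_summable' (𝕂 := ℝ) (s • TT V)).hasSum
    rwa [← congrFun (exp_eq_tsum (𝔸 := (Perm V → ℝ) →L[ℝ] (Perm V → ℝ)) ℝ) (s • TT V)] at this
  have h2 := (evg F g).hasSum h1
  have h3 : (fun m : ℕ => pw s m * ((TT V) ^ m) F g)
      = fun m : ℕ => (evg F g) (((m.factorial : ℝ)⁻¹) • (s • TT V) ^ m) := by
    funext m
    rw [smul_pow, map_smul, map_smul]
    simp only [smul_eq_mul, pw]
    change _ = ((m.factorial : ℝ))⁻¹ * (s ^ m * ((TT V) ^ m) F g)
    ring
  rw [h3]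
  exact h2

lemma exp_BB [Nonempty V] (s : ℝ) (F : Perm V → ℝ) (g : Perm V) :
    (exp (s • BB V)) F g = Real.exp (-(s * Fintype.card V / 2)) *
      (exp ((s * (Fintype.card V : ℝ) ^ 2 / 2) • TT V)) F g := by
  have hn : (0 : ℝ) < Fintype.card V := by exact_mod_cast Fintype.card_pos
  have h1 : s • BB V = (s * (Fintype.card V : ℝ) ^ 2 / 2) • TT V +
      (-(s * Fintype.card V / 2)) • (1 : (Perm V → ℝ) →L[ℝ] (Perm V → ℝ)) := by
    unfold TT
    rw [smul_smul]
    have h2 : s * (Fintype.card V : ℝ) ^ 2 / 2 * (2 / (Fintype.card V : ℝ) ^ 2) = s := by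
      field_simp
    rw [h2, smul_add, smul_smul, add_assoc, ← add_smul]
    have h3 : s * ((Fintype.card V : ℝ) / 2) + -(s * Fintype.card V / 2) = 0 := by ring
    rw [h3, zero_smul, add_zero]
  have hc : Commute ((s * (Fintype.card V : ℝ) ^ 2 / 2) • TT V)
      ((-(s * Fintype.card V / 2)) • (1 : (Perm V → ℝ) →L[ℝ] (Perm V → ℝ))) :=
    (Commute.one_right _).smul_right _
  let _ : NormedAlgebra ℚ ((Perm V → ℝ) →L[ℝ] (Perm V → ℝ)) :=
    NormedAlgebra.restrictScalars ℚ ℝ _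
  rw [h1, exp_add_of_commute hc]
  have h4 : exp ((-(s * Fintype.card V / 2)) • (1 : (Perm V → ℝ) →L[ℝ] (Perm V → ℝ))) =
      Real.exp (-(s * Fintype.card V / 2)) • 1 := by
    rw [← Algebra.algebraMap_eq_smul_one, ← Algebra.algebraMap_eq_smul_one,
      Real.exp_eq_exp_ℝ, algebraMap_exp_comm]
  rw [h4, mul_smul_comm, mul_one]
  rfl

/-- PD-IV -/
theorem main : S_inv := by
  intro V _ _ _ J t κ K F hJ ht hκ hF
  set J' : V → V → ℝ := fun x y => J x y + if x ≠ y then κ else 0 with hJ'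
  set n : ℝ := ((Fintype.card V : ℕ) : ℝ) with hn
  have hn0 : 0 < n := by rw [hn]; exact_mod_cast Fintype.card_pos
  set μ : ℝ := t * κ * n ^ 2 / 2 with hμdef
  have hμ : 0 < μ := by positivity
  set c : ℝ := Real.exp (-(t * κ * n / 2)) with hc
  have hc0 : 0 < c := Real.exp_pos _
  have hM : ∀ F : Perm V → ℝ, ∑ g, stirMass J' t g * F g =
      ∑ g, stirMass J t g * (c * (exp (μ • TT V)) F g) := by
    intro F
    rw [sum_stirMass J' t F, hJ', exp_split J t κ F]
    refine Finset.sum_congr rfl fun g _ => ?_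
    rw [exp_BB]
  have hmass : ∑ g, stirMass J' t g = ∑ g, stirMass J t g * (c * Real.exp μ) := by
    have h1 := hM (fun _ => 1)
    simp only [mul_one] at h1
    rw [h1]
    refine Finset.sum_congr rfl fun g _ => ?_
    have h2 := exp_TT μ (fun _ => (1 : ℝ)) g
    simp only [TT_one, mul_one] at h2
    rw [h2.unique (pw_hasSum μ)]
  have hstep : ∀ F : Perm V → ℝ, (∀ g, |F g| ≤ 1) →
      |∑ g, stirMass J' t g * F g - ∑ g, stirMass J' t g * TT V F g| ≤
        1 / Real.sqrt μ * ∑ g, stirMass J' t g := by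
    intro F hF
    rw [hM F, hM (TT V F), hmass, ← Finset.sum_sub_distrib, Finset.mul_sum]
    refine (Finset.abs_sum_le_sum_abs _ _).trans (Finset.sum_le_sum fun g _ => ?_)
    have h0 := stirMass_nonneg J hJ t ht.le g
    rw [← mul_sub, ← mul_sub, abs_mul, abs_mul, abs_of_nonneg h0, abs_of_pos hc0]
    have h1 := diff_le hμ (fun k => ((TT V) ^ k) F g) (fun k => TT_abs k F hF g) _
      ((exp (μ • TT V)) (TT V F) g) (exp_TT μ F g) (by
        have h2 := exp_TT μ (TT V F) g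
        have h3 : ∀ m : ℕ, ((TT V) ^ m) (TT V F) g = ((TT V) ^ (m + 1)) F g := by
          intro m
          rw [pow_succ]; rfl
        simp only [h3] at h2
        exact h2)
    calc stirMass J t g * (c * |(exp (μ • TT V)) F g - (exp (μ • TT V)) (TT V F) g|)
        ≤ stirMass J t g * (c * (Real.exp μ / Real.sqrt μ)) := by gcongr
      _ = 1 / Real.sqrt μ * (stirMass J t g * (c * Real.exp μ)) := by ring
  have hiter : ∀ K : ℕ, |∑ g, stirMass J' t g * F g - ∑ g, stirMass J' t g * ((TT V) ^ K) F g| ≤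
      K * (1 / Real.sqrt μ * ∑ g, stirMass J' t g) := by
    intro K
    induction K with
    | zero => simp
    | succ K ih =>
      have h1 := hstep (((TT V) ^ K) F) (TT_abs K F hF)
      have h2 : TT V (((TT V) ^ K) F) = ((TT V) ^ (K + 1)) F := by
        rw [pow_succ']; rfl
      rw [h2] at h1
      rw [Nat.cast_succ]
      calc |∑ g, stirMass J' t g * F g - ∑ g, stirMass J' t g * ((TT V) ^ (K + 1)) F g|
          ≤ |∑ g, stirMass J' t g * F g - ∑ g, stirMass J' t g * ((TT V) ^ K) F g| +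
            |∑ g, stirMass J' t g * ((TT V) ^ K) F g -
              ∑ g, stirMass J' t g * ((TT V) ^ (K + 1)) F g| := abs_sub_le _ _ _
        _ ≤ _ := by linarith
  have h := hiter K
  have e1 : ∀ g, ((TT V) ^ K) F g = uavg (fun x : Fin K → V × V => F (prodSw x * g)) :=
    fun g => TT_pow K F g
  simp only [e1] at h
  calc _ ≤ K * (1 / Real.sqrt μ * ∑ g, stirMass J' t g) := h
    _ = K / Real.sqrt μ * ∑ g, stirMass J' t g := by ring

end op

end Pool.Agent.W782.PD.Inv
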