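import Pool.Agent.W782.PD.Avg

/-!
# Project PD (MP_b817cf_pr, helper805): task PD-P1
-/

set_option autoImplicit false

namespace Pool.Agent.W782.PD.Samp

open Finset Equiv Filter Topology
open Pool.Agent.W805.LR Pool.Agent.W805.PD Pool.Agent.W782.PD.Avg

section perm

variable {V : Type} [Fintype V] [DecidableEq V]

theorem cnt_eq {W : Type} [Fintype W] (P : W → Prop) [DecidablePred P] :
    cnt P = ((univ.filter P).card : ℝ) := by
  unfold cnt
  rw [Finset.card_filter]
  push_cast
  apply Finset.sum_congr rfl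
  intro v _
  by_cases h : P v <;> simp [h]

theorem len_class (σ : Perm V) (u : V) (hu : σ u ≠ u) :
    len σ u = ((σ.cycleOf u).support.card : ℝ) := by
  classical
  unfold len
  rw [cnt_eq]
  congr 2
  ext j
  simp only [mem_filter, mem_univ, true_and]
  rw [Perm.mem_support_cycleOf_iff' hu]

theorem len_fix (σ : Perm V) (u : V) (hu : σ u = u) : len σ u = 1 := by
  classical
  unfold len
  rw [cnt_eq]
  have : (univ.filter fun j => σ.SameCycle u j) = {u} := by
    ext j
    simp only [mem_filter, mem_univ, true_and, mem_singleton]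
    constructor
    · intro h
      exact (Perm.SameCycle.eq_of_left h hu).symm
    · rintro rfl
      exact Perm.SameCycle.refl _ _
  rw [this]
  simp

lemma one_le_len (σ : Perm V) (u : V) : 1 ≤ len σ u := by
  classical
  unfold len
  rw [cnt_eq]
  have : 0 < (univ.filter fun j => σ.SameCycle u j).card :=
    Finset.card_pos.mpr ⟨u, by simp [Perm.SameCycle.refl]⟩
  exact_mod_cast this

lemma len_le (σ : Perm V) (u : V) : len σ u ≤ Fintype.card V := by
  classical
  unfold len
  rw [cnt_eq]
  exact_mod_cast Finset.card_le_univ _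

lemma len_congr (σ : Perm V) {u w : V} (h : σ.SameCycle u w) : len σ u = len σ w := by
  classical
  unfold len
  rw [cnt_eq, cnt_eq]
  congr 2
  ext j
  simp only [mem_filter, mem_univ, true_and]
  exact ⟨fun h' => h.symm.trans h', fun h' => h.trans h'⟩

/-- the key equivalence -/
theorem key (σ : Perm V) (i : ℕ) (x : ℝ) :
    (∃ f : Fin (i + 1) → V, (∀ a b, a ≠ b → ¬ σ.SameCycle (f a) (f b)) ∧
      ∀ a, x ≤ len σ (f a) / Fintype.card V) ↔
    i + 1 ≤ Multiset.card (σ.partition.parts.filter fun c : ℕ => x ≤ (c : ℝ) / Fintype.card V) := by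
  classical
  set n : ℝ := ((Fintype.card V : ℕ) : ℝ) with hn
  set F1 : Finset (Perm V) := σ.cycleFactorsFinset.filter fun c => x ≤ (c.support.card : ℝ) / n
    with hF1
  set F2 : Finset V := univ.filter fun u => σ u = u ∧ x ≤ 1 / n with hF2
  have hcard : Multiset.card (σ.partition.parts.filter fun c : ℕ => x ≤ (c : ℝ) / n) =
      F1.card + F2.card := by
    rw [Perm.parts_partition, Multiset.filter_add, Multiset.card_add]
    congr 1
    · rw [Perm.cycleType_def, Multiset.filter_map, Multiset.card_map]
      rfl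
    · by_cases hx : x ≤ 1 / n
      · rw [Multiset.filter_eq_self.mpr]
        · rw [Multiset.card_replicate, hF2]
          have h1 : (univ.filter fun u => σ u = u ∧ x ≤ 1 / n) = σ.supportᶜ := by
            ext u
            rw [mem_filter, Finset.mem_compl, Perm.mem_support, not_not]
            exact ⟨fun h => h.2.1, fun h => ⟨mem_univ _, h, hx⟩⟩
          rw [h1, Finset.card_compl]
        · intro c hc
          rw [Multiset.eq_of_mem_replicate hc]
          simpa using hx
      · rw [Multiset.filter_eq_nil.mpr]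
        · rw [hF2, Finset.filter_false_of_mem fun u _ h => hx h.2]
          simp
        · intro c hc
          rw [Multiset.eq_of_mem_replicate hc]
          simpa using hx
  rw [hcard]
  have hFcard : Fintype.card (F1 ⊕ F2) = F1.card + F2.card := by
    rw [Fintype.card_sum, Fintype.card_coe, Fintype.card_coe]
  rw [← hFcard]
  constructor
  · rintro ⟨f, hf, hs⟩
    have hmem1 : ∀ a, σ (f a) ≠ f a → σ.cycleOf (f a) ∈ F1 := by
      intro a ha
      rw [hF1, mem_filter]
      refine ⟨?_, ?_⟩
      · rw [Perm.cycleOf_mem_cycleFactorsFinset_iff, Perm.mem_support]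
        exact ha
      · rw [← len_class σ _ ha]
        exact hs a
    have hmem2 : ∀ a, σ (f a) = f a → f a ∈ F2 := by
      intro a ha
      rw [hF2, mem_filter]
      refine ⟨mem_univ _, ha, ?_⟩
      rw [← len_fix σ _ ha]
      exact hs a
    let g : Fin (i + 1) → F1 ⊕ F2 := fun a =>
      if ha : σ (f a) = f a then Sum.inr ⟨f a, hmem2 a ha⟩
      else Sum.inl ⟨σ.cycleOf (f a), hmem1 a ha⟩
    have hinj : Function.Injective g := by
      intro a b hab
      by_contra hne
      apply hf a b hne
      by_cases ha : σ (f a) = f a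
      · by_cases hb : σ (f b) = f b
        · simp only [g, dif_pos ha, dif_pos hb, Sum.inr.injEq, Subtype.mk.injEq] at hab
          rw [hab]
        · simp only [g, dif_pos ha, dif_neg hb] at hab
          exact absurd hab (by simp)
      · by_cases hb : σ (f b) = f b
        · simp only [g, dif_neg ha, dif_pos hb] at hab
          exact absurd hab (by simp)
        · simp only [g, dif_neg ha, dif_neg hb, Sum.inl.injEq, Subtype.mk.injEq] at hab
          have h1 : f b ∈ (σ.cycleOf (f b)).support := by
            rw [Perm.mem_support_cycleOf_iff' hb]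
          rw [← hab, Perm.mem_support_cycleOf_iff' ha] at h1
          exact h1
    have := Fintype.card_le_of_injective g hinj
    rwa [Fintype.card_fin] at this
  · intro h
    have h1 : Fintype.card (Fin (i + 1)) ≤ Fintype.card (F1 ⊕ F2) := by
      rw [Fintype.card_fin]; exact h
    obtain ⟨g⟩ := Function.Embedding.nonempty_of_card_le h1
    have hrep : ∀ z : F1 ⊕ F2, ∃ u : V, Sum.elim (fun c : F1 => u ∈ c.1.support)
        (fun w : F2 => u = w.1) z := by
      rintro (c | w)
      · have hc := (mem_filter.1 c.2).1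
        have h2 := (Perm.mem_cycleFactorsFinset_iff.1 hc).1
        have h3 := h2.two_le_card_support
        obtain ⟨u, hu⟩ := Finset.card_pos.1 (show 0 < c.1.support.card by omega)
        exact ⟨u, hu⟩
      · exact ⟨w.1, rfl⟩
    choose rep hrep' using hrep
    have hcase1 : ∀ c : F1, σ (rep (Sum.inl c)) ≠ rep (Sum.inl c) ∧
        c.1 = σ.cycleOf (rep (Sum.inl c)) := by
      intro c
      have hc := (mem_filter.1 c.2).1
      have h2 : rep (Sum.inl c) ∈ c.1.support := hrep' (Sum.inl c)
      refine ⟨?_, Perm.cycle_is_cycleOf h2 hc⟩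
      rw [← Perm.mem_support]
      exact Perm.mem_cycleFactorsFinset_support_le hc h2
    have hcase2 : ∀ w : F2, rep (Sum.inr w) = w.1 := fun w => hrep' (Sum.inr w)
    have hsep : ∀ z z' : F1 ⊕ F2, σ.SameCycle (rep z) (rep z') → z = z' := by
      rintro (c | w) (c' | w') hs
      · congr 1
        apply Subtype.ext
        rw [(hcase1 c).2, (hcase1 c').2]
        exact Perm.SameCycle.cycleOf_eq hs
      · exfalso
        have h3 : σ w'.1 = w'.1 := (mem_filter.1 w'.2).2.1
        rw [hcase2 w'] at hs
        have h4 := Perm.SameCycle.eq_of_right hs h3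
        rw [← h4] at h3
        exact (hcase1 c).1 h3
      · exfalso
        have h3 : σ w.1 = w.1 := (mem_filter.1 w.2).2.1
        rw [hcase2 w] at hs
        have h4 := Perm.SameCycle.eq_of_left hs h3
        rw [h4] at h3
        exact (hcase1 c').1 h3
      · congr 1
        apply Subtype.ext
        have h3 : σ w.1 = w.1 := (mem_filter.1 w.2).2.1
        rw [hcase2 w, hcase2 w'] at hs
        exact Perm.SameCycle.eq_of_left hs h3
    refine ⟨fun a => rep (g a), fun a b hab hs => hab (g.injective (hsep _ _ hs)), fun a => ?_⟩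
    show x ≤ len σ (rep (g a)) / n
    rcases hga : g a with c | w
    · rw [len_class σ _ (hcase1 c).1, ← (hcase1 c).2]
      exact (mem_filter.1 c.2).2
    · have h3 : σ w.1 = w.1 := (mem_filter.1 w.2).2.1
      rw [hcase2 w, len_fix σ _ h3]
      exact (mem_filter.1 w.2).2.2

end perm

section samp

set_option linter.unusedSectionVars false

variable {V : Type} [Fintype V] [DecidableEq V] [Nonempty V] {m : ℕ}

/-- indicator -/
noncomputable def ind (P : Prop) : ℝ := open Classical in if P then (1 : ℝ) else 0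

/-- indicator of the cycle of `a` -/
noncomputable def chi (g : Perm V) (a b : V) : ℝ := ind (g.SameCycle a b)

lemma uavg_chi (g : Perm V) (a : V) : uavg (chi g a) = len g a / Fintype.card V := rfl

/-- relative number of samples in the cycle of `a` -/
noncomputable def NN (g : Perm V) (a : V) (v : Fin m → V) : ℝ := (∑ i, chi g a (v i)) / m

lemma NN_eq (g : Perm V) (a : V) (v : Fin m → V) :
    NN g a v = (cnt fun j => g.SameCycle a (v j)) / m := rfl

/-- the quadratic deviation -/
noncomputable def QQ (g : Perm V) (v : Fin m → V) : ℝ :=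
  ∑ a, 1 / len g a * (NN g a v - len g a / Fintype.card V) ^ 2

lemma NN_congr (g : Perm V) {a b : V} (h : g.SameCycle a b) (v : Fin m → V) :
    NN g a v = NN g b v := by
  unfold NN
  congr 1
  refine Finset.sum_congr rfl fun i _ => ?_
  unfold chi
  have : g.SameCycle a (v i) ↔ g.SameCycle b (v i) := ⟨fun h' => h.symm.trans h', fun h' => h.trans h'⟩
  simp only [this]

lemma dev_le (g : Perm V) (v : Fin m → V) (b : V) :
    (NN g b v - len g b / Fintype.card V) ^ 2 ≤ QQ g v := by
  classical
  unfold QQ
  have hlb : 0 < len g b := lt_of_lt_of_le one_pos (one_le_len g b)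
  calc (NN g b v - len g b / Fintype.card V) ^ 2
      = ∑ a ∈ univ.filter (fun a => g.SameCycle b a), 1 / len g a *
          (NN g a v - len g a / Fintype.card V) ^ 2 := by
        have h1 : ∀ a ∈ univ.filter (fun a => g.SameCycle b a), 1 / len g a *
            (NN g a v - len g a / Fintype.card V) ^ 2 =
            1 / len g b * (NN g b v - len g b / Fintype.card V) ^ 2 := by
          intro a ha
          have h2 : g.SameCycle b a := (mem_filter.1 ha).2
          rw [len_congr g h2, NN_congr g h2]
        rw [Finset.sum_congr rfl h1, Finset.sum_const, nsmul_eq_mul]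
        have h3 : ((univ.filter (fun a => g.SameCycle b a)).card : ℝ) = len g b := by
          unfold len
          rw [cnt_eq]
        rw [h3]
        field_simp
    _ ≤ _ := by
        apply Finset.sum_le_sum_of_subset_of_nonneg (Finset.filter_subset _ _)
        intro a _ _
        have : 0 < len g a := lt_of_lt_of_le one_pos (one_le_len g a)
        positivity

lemma uavg_QQ (g : Perm V) (hm : 0 < m) : uavg (fun v : Fin m → V => QQ g v) ≤ 1 / m := by
  have hm' : (0 : ℝ) < m := by exact_mod_cast hm
  have hn : (0 : ℝ) < Fintype.card V := by exact_mod_cast Fintype.card_pos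
  unfold QQ
  rw [uavg_sum]
  have h1 : ∀ a : V, uavg (fun v : Fin m → V => 1 / len g a *
      (NN g a v - len g a / Fintype.card V) ^ 2) ≤ 1 / (Fintype.card V * m) := by
    intro a
    have hla : 0 < len g a := lt_of_lt_of_le one_pos (one_le_len g a)
    rw [uavg_mul]
    have h2 := uavg_var (chi g a) hm
    rw [uavg_chi] at h2
    have h3 : uavg (fun v : Fin m → V => (NN g a v - len g a / Fintype.card V) ^ 2) =
        uavg (fun b => (chi g a b - len g a / Fintype.card V) ^ 2) / m := h2
    rw [h3]
    set q : ℝ := len g a / Fintype.card V with hq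
    have h4 : uavg (fun b => (chi g a b - q) ^ 2) = q - q ^ 2 := by
      have h5 : ∀ b, (chi g a b - q) ^ 2 = (1 - 2 * q) * chi g a b + q ^ 2 := by
        intro b
        have h6 : chi g a b ^ 2 = chi g a b := by
          unfold chi ind
          split_ifs <;> norm_num
        calc (chi g a b - q) ^ 2 = chi g a b ^ 2 - 2 * q * chi g a b + q ^ 2 := by ring
          _ = _ := by rw [h6]; ring
      simp only [h5]
      rw [uavg_add, uavg_mul, uavg_const, uavg_chi]
      ring
    rw [h4]
    have h7 : 1 / len g a * ((q - q ^ 2) / m) ≤ 1 / len g a * (q / m) := by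
      have : q - q ^ 2 ≤ q := by nlinarith [sq_nonneg q]
      gcongr
    refine h7.trans (le_of_eq ?_)
    rw [hq]
    field_simp
  calc ∑ a, uavg (fun v : Fin m → V => 1 / len g a *
      (NN g a v - len g a / Fintype.card V) ^ 2) ≤ ∑ _a : V, 1 / ((Fintype.card V : ℝ) * m) :=
        Finset.sum_le_sum fun a _ => h1 a
    _ = 1 / m := by
      rw [Finset.sum_const, Finset.card_univ, nsmul_eq_mul]
      field_simp

/-- the set defining `pOrd` -/
def PS (g : Perm V) (i : ℕ) : Set ℝ := {x : ℝ | i + 1 ≤ Multiset.card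
    (g.partition.parts.filter fun c : ℕ => x ≤ (c : ℝ) / Fintype.card V)}

lemma pOrd_def (g : Perm V) (i : ℕ) : pOrd g i = sSup (PS g i) := rfl

lemma PS_iff (g : Perm V) (i : ℕ) (x : ℝ) : x ∈ PS g i ↔
    ∃ f : Fin (i + 1) → V, (∀ a b, a ≠ b → ¬ g.SameCycle (f a) (f b)) ∧
      ∀ a, x ≤ len g (f a) / Fintype.card V := (key g i x).symm

lemma PS_le (g : Perm V) (i : ℕ) {x : ℝ} (hx : x ∈ PS g i) : x ≤ 1 := by
  obtain ⟨f, _, hf⟩ := (PS_iff g i x).mp hx
  refine (hf 0).trans ?_
  have hn : (0 : ℝ) < Fintype.card V := by exact_mod_cast Fintype.card_pos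
  rw [div_le_one hn]
  exact len_le g _

lemma PS_bdd (g : Perm V) (i : ℕ) : BddAbove (PS g i) := ⟨1, fun _ hx => PS_le g i hx⟩

lemma pOrd_nonneg (g : Perm V) (i : ℕ) : 0 ≤ pOrd g i := by
  rw [pOrd_def]
  rcases (PS g i).eq_empty_or_nonempty with h | ⟨x, hx⟩
  · rw [h, Real.sSup_empty]
  · apply le_csSup (PS_bdd g i)
    obtain ⟨f, hf, _⟩ := (PS_iff g i x).mp hx
    refine (PS_iff g i 0).mpr ⟨f, hf, fun a => ?_⟩
    have := one_le_len g (f a)
    positivity

lemma pOrd_le_one (g : Perm V) (i : ℕ) : pOrd g i ≤ 1 := by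
  rw [pOrd_def]
  rcases (PS g i).eq_empty_or_nonempty with h | h
  · rw [h, Real.sSup_empty]
    norm_num
  · exact csSup_le h fun x hx => PS_le g i hx

/-- the set defining `rOrd` -/
def RS (r : Fin m → Fin m → Prop) (i : ℕ) : Set ℝ :=
  {x : ℝ | 0 ≤ x ∧ (x = 0 ∨ ∃ f : Fin (i + 1) → Fin m, (∀ a b, a ≠ b → ¬ r (f a) (f b)) ∧
    ∀ a, x ≤ (cnt fun j => r (f a) j) / m)}

lemma rOrd_def (r : Fin m → Fin m → Prop) (i : ℕ) : rOrd r i = sSup (RS r i) := rfl

lemma RS_zero (r : Fin m → Fin m → Prop) (i : ℕ) : (0 : ℝ) ∈ RS r i := ⟨le_rfl, Or.inl rfl⟩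

lemma RS_le (hm : 0 < m) (r : Fin m → Fin m → Prop) (i : ℕ) {x : ℝ} (hx : x ∈ RS r i) : x ≤ 1 := by
  classical
  rcases hx.2 with h | ⟨f, _, hf⟩
  · rw [h]; norm_num
  · refine (hf 0).trans ?_
    rw [div_le_one (by exact_mod_cast hm), cnt_eq]
    have := Finset.card_filter_le (univ : Finset (Fin m)) fun j => r (f 0) j
    rw [Finset.card_univ, Fintype.card_fin] at this
    exact_mod_cast this

lemma RS_bdd (hm : 0 < m) (r : Fin m → Fin m → Prop) (i : ℕ) : BddAbove (RS r i) :=
  ⟨1, fun _ hx => RS_le hm r i hx⟩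

lemma rOrd_nonneg (hm : 0 < m) (r : Fin m → Fin m → Prop) (i : ℕ) : 0 ≤ rOrd r i :=
  le_csSup (RS_bdd hm r i) (RS_zero r i)

lemma rOrd_le_one (hm : 0 < m) (r : Fin m → Fin m → Prop) (i : ℕ) : rOrd r i ≤ 1 :=
  csSup_le ⟨0, RS_zero r i⟩ fun _ hx => RS_le hm r i hx

/-- ordered cycle lengths are Lipschitz -/
lemma ord_lip (hm : 0 < m) (g : Perm V) (v : Fin m → V) (i : ℕ) (D : ℝ) (hD0 : 0 ≤ D)
    (hD : ∀ b, |NN g b v - len g b / Fintype.card V| ≤ D) :
    |rOrd (rel g v) i - pOrd g i| ≤ D := by
  classical
  have hm' : (0 : ℝ) < m := by exact_mod_cast hm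
  rw [abs_le]
  constructor
  · -- `pOrd ≤ rOrd + D`
    suffices h : pOrd g i ≤ rOrd (rel g v) i + D by linarith
    rw [pOrd_def]
    rcases (PS g i).eq_empty_or_nonempty with h | h
    · rw [h, Real.sSup_empty]
      have := rOrd_nonneg hm (rel g v) i
      linarith
    · apply csSup_le h
      intro x hx
      rcases le_or_gt x D with hxD | hxD
      · have := rOrd_nonneg hm (rel g v) i
        linarith
      · obtain ⟨f, hf, hfx⟩ := (PS_iff g i x).mp hx
        have hN : ∀ a, x - D ≤ NN g (f a) v := by
          intro a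
          have h1 := (abs_le.mp (hD (f a))).1
          have h2 := hfx a
          linarith
        have hex : ∀ a, ∃ j, g.SameCycle (f a) (v j) := by
          intro a
          by_contra hno
          push Not at hno
          have h1 : NN g (f a) v = 0 := by
            unfold NN
            rw [Finset.sum_eq_zero fun j _ => ?_, zero_div]
            unfold chi ind
            rw [if_neg (hno j)]
          have h2 := hN a
          rw [h1] at h2
          linarith
        choose j hj using hex
        have hmem : x - D ∈ RS (rel g v) i := by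
          refine ⟨by linarith, Or.inr ⟨j, fun a b hab hr => ?_, fun a => ?_⟩⟩
          · apply hf a b hab
            exact (hj a).trans (Perm.SameCycle.trans hr (hj b).symm)
          · have h1 : NN g (f a) v = NN g (v (j a)) v := NN_congr g (hj a) v
            have h2 := hN a
            rw [h1, NN_eq] at h2
            exact h2
        have := le_csSup (RS_bdd hm (rel g v) i) hmem
        rw [rOrd_def]
        linarith
  · suffices h : rOrd (rel g v) i ≤ pOrd g i + D by linarith
    rw [rOrd_def]
    apply csSup_le ⟨0, RS_zero _ i⟩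
    intro x hx
    rcases hx.2 with h | ⟨f, hf, hfx⟩
    · rw [h]
      have := pOrd_nonneg g i
      linarith
    · have hmem : x - D ∈ PS g i := by
        refine (PS_iff g i _).mpr ⟨fun a => v (f a), fun a b hab hr => hf a b hab hr, fun a => ?_⟩
        have h1 := (abs_le.mp (hD (v (f a)))).2
        have h2 := hfx a
        have h3 : (cnt fun j => rel g v (f a) j) / m = NN g (v (f a)) v := rfl
        rw [h3] at h2
        linarith
      have := le_csSup (PS_bdd g i) hmem
      rw [pOrd_def]
      linarith

end samp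

/-- PD-P1 -/
theorem main : S_samp := by
  intro k f δ hf hδ
  have hK : IsCompact (Set.Icc (0 : Fin k → ℝ) 1) := isCompact_Icc
  obtain ⟨C0, hC0⟩ := hK.exists_bound_of_continuousOn hf.continuousOn
  set C : ℝ := |C0| + 1 with hCdef
  have hCpos : 0 < C := by positivity
  have hC : ∀ x ∈ Set.Icc (0 : Fin k → ℝ) 1, |f x| ≤ C := by
    intro x hx
    have := hC0 x hx
    rw [Real.norm_eq_abs] at this
    linarith [le_abs_self C0]
  have huc := hK.uniformContinuousOn_of_continuous hf.continuousOn
  rw [Metric.uniformContinuousOn_iff_le] at huc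
  obtain ⟨η, hη, hη'⟩ := huc (δ / 2) (by linarith)
  obtain ⟨m0, hm0⟩ := exists_nat_ge (4 * C / (η ^ 2 * δ) + 1)
  refine ⟨m0, fun m hm V _ _ _ g => ?_⟩
  have hmr : 4 * C / (η ^ 2 * δ) + 1 ≤ m := hm0.trans (by exact_mod_cast hm)
  have hpos : 0 ≤ 4 * C / (η ^ 2 * δ) := by positivity
  have hm1 : (0 : ℝ) < m := by linarith
  have hm1' : 0 < m := by exact_mod_cast hm1
  have hp : (fun i : Fin k => pOrd g i) ∈ Set.Icc (0 : Fin k → ℝ) 1 :=
    ⟨fun i => pOrd_nonneg g i, fun i => pOrd_le_one g i⟩
  have hr : ∀ v : Fin m → V, (fun i : Fin k => rOrd (rel g v) i) ∈ Set.Icc (0 : Fin k → ℝ) 1 :=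
    fun v => ⟨fun i => rOrd_nonneg hm1' _ i, fun i => rOrd_le_one hm1' _ i⟩
  rw [abs_sub_comm]
  refine (abs_uavg_sub_le _ _).trans ?_
  have hpt : ∀ v : Fin m → V, |f (fun i : Fin k => rOrd (rel g v) i) - f fun i : Fin k => pOrd g i| ≤
      δ / 2 + 2 * C / η ^ 2 * QQ g v := by
    intro v
    have hQ0 : 0 ≤ QQ g v := le_trans (sq_nonneg _) (dev_le g v (Classical.arbitrary V))
    have h0 : 0 ≤ 2 * C / η ^ 2 * QQ g v := by positivity
    rcases le_or_gt (QQ g v) (η ^ 2) with h | h
    · have h1 := hη' _ (hr v) _ hp ?_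
      · rw [Real.dist_eq] at h1
        linarith
      · rw [dist_pi_le_iff hη.le]
        intro i
        rw [Real.dist_eq]
        apply ord_lip hm1' g v i η hη.le
        intro b
        exact abs_le_of_sq_le_sq ((dev_le g v b).trans h) hη.le
    · have h1 : |f (fun i : Fin k => rOrd (rel g v) i) - f fun i : Fin k => pOrd g i| ≤ 2 * C := by
        refine (abs_sub _ _).trans ?_
        have e1 := hC _ (hr v)
        have e2 := hC _ hp
        linarith
      have h2 : 2 * C ≤ 2 * C / η ^ 2 * QQ g v := by
        rw [div_mul_eq_mul_div, le_div_iff₀ (by positivity)]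
        exact mul_le_mul_of_nonneg_left h.le (by positivity)
      linarith
  refine (uavg_mono hpt).trans ?_
  rw [uavg_add, uavg_const, uavg_mul]
  have h3 : 2 * C / η ^ 2 * uavg (fun v : Fin m → V => QQ g v) ≤ 2 * C / η ^ 2 * (1 / m) :=
    mul_le_mul_of_nonneg_left (uavg_QQ g hm1') (by positivity)
  have h4 : 2 * C / η ^ 2 * (1 / m) ≤ δ / 2 := by
    rw [div_mul_div_comm, mul_one, div_le_div_iff₀ (by positivity) (by norm_num)]
    have h5 : 4 * C / (η ^ 2 * δ) ≤ m := by linarith
    rw [div_le_iff₀ (by positivity)] at h5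
    nlinarith
  linarith

end Pool.Agent.W782.PD.Samp
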